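import Pool.Agent.H88.B2.Targets

/-!
# Row PGR: dyadic values of a real function
-/

set_option autoImplicit false

namespace Pool.Agent.H76.B2.PGR

open Pool.Agent.H83.G Pool.Agent.H88.B2

theorem pf_PGR : T_PGR := by
  classical
  intro β n X g hg
  -- the dyadic level
  let j : β → ℤ := fun z => ⌊Real.logb 2 (g z)⌋
  have hpos : ∀ z ∈ X, 0 < g z := fun z hz => lt_of_lt_of_le (by positivity) (hg z hz).1
  have hj : ∀ z ∈ X, j z ∈ Finset.Icc (-(n : ℤ)) n := by
    intro z hz
    obtain ⟨h1, h2⟩ := hg z hz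
    have h3 : (-(n : ℝ)) ≤ Real.logb 2 (g z) := by
      rw [Real.le_logb_iff_rpow_le (by norm_num) (hpos z hz), Real.rpow_neg (by norm_num),
        Real.rpow_natCast, ← inv_pow]
      exact h1
    have h4 : Real.logb 2 (g z) ≤ n := by
      rw [Real.logb_le_iff_le_rpow (by norm_num) (hpos z hz), Real.rpow_natCast]
      exact h2
    rw [Finset.mem_Icc]
    constructor
    · rw [Int.le_floor]
      push_cast
      exact h3
    · have h5 : ((⌊Real.logb 2 (g z)⌋ : ℤ) : ℝ) ≤ ((n : ℤ) : ℝ) := by
        refine (Int.floor_le _).trans ?_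
        push_cast
        exact h4
      exact_mod_cast h5
  have hne : (Finset.Icc (-(n : ℤ)) n).Nonempty := ⟨0, by
    rw [Finset.mem_Icc]
    constructor <;> omega⟩
  -- the largest level
  obtain ⟨i, hi, hmax⟩ := Finset.exists_max_image (Finset.Icc (-(n : ℤ)) n)
    (fun i => (X.filter fun z => j z = i).card) hne
  refine ⟨X.filter fun z => j z = i, (2 : ℝ) ^ i, Finset.filter_subset _ _, by positivity, ?_,
    fun z hz => ?_⟩
  · have h1 := Finset.card_eq_sum_card_fiberwise (f := j) (s := X)
      (t := Finset.Icc (-(n : ℤ)) n) (fun z hz => hj z hz)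
    rw [h1]
    refine (Finset.sum_le_card_nsmul _ _ _ fun k hk => hmax k hk).trans (le_of_eq ?_)
    rw [Int.card_Icc, smul_eq_mul]
    congr 1
    omega
  · obtain ⟨hzX, hzi⟩ := Finset.mem_filter.1 hz
    have h0 := hpos z hzX
    have h1 : (i : ℝ) ≤ Real.logb 2 (g z) := by
      rw [← hzi]
      exact Int.floor_le _
    have h2 : Real.logb 2 (g z) < (i : ℝ) + 1 := by
      rw [← hzi]
      exact Int.lt_floor_add_one _
    rw [Real.le_logb_iff_rpow_le (by norm_num) h0, Real.rpow_intCast] at h1
    rw [Real.logb_lt_iff_lt_rpow (by norm_num) h0, Real.rpow_add (by norm_num), Real.rpow_one,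
      Real.rpow_intCast] at h2
    exact ⟨h1, by linarith⟩

end Pool.Agent.H76.B2.PGR
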